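import Pool.Agent.H629.LM.M0
import Pool.Agent.H629.LM.M1
import Pool.Agent.H629.LM.M2
import Pool.Agent.H629.LM.M3
import Pool.Agent.H629.LM.M4
import Pool.Agent.H629.LM.M5
import Pool.Agent.H629.LM.M6
import Pool.Agent.H629.LM.M7
import Pool.Agent.H629.LM.M8
import Pool.Agent.H629.LM.M9
import Pool.Agent.H629.LM.M10

set_option autoImplicit false

/-!
# MP_9fbc95_co: positivity of the numerators of Lommel ratios for `m ≤ 10` and all `n`

The proof: `N_n = D_n c_n` satisfies a linear recurrence with alternating signs; the differences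
`N_n - 3 G_n N_{n-1}`, etc. (`G_n` a product of factors `ν + i`), remain coefficientwise
nonnegative.  The modules `Pool.Agent.H629.LM.*` contain the general recurrence and these
invariants.
-/

namespace Pool.Agent.Results.MP_9fbc95_co.SmallIndex

noncomputable section

/-- The field `ℚ(ν)`. -/
abbrev K : Type := RatFunc ℚ

/-- The indeterminate `ν`. -/
def nu : K := RatFunc.X

/-- The Lommel polynomial `R_{m,a}(x)` as a Laurent series in `t = x / 2` over `ℚ(ν)`:
`HahnSeries.single k b` is `b t^k`, and `Γ(a + m - j) / Γ(a + j) = ∏_{j ≤ i < m - j} (a + i)`. -/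
def lommel (m : ℕ) (a : K) : LaurentSeries K :=
  ∑ j ∈ Finset.range (m / 2 + 1), HahnSeries.single (2 * (j : ℤ) - m)
    ((-1) ^ j * (((m - j).factorial : K) / (j.factorial * (m - 2 * j).factorial)) *
      ∏ i ∈ Finset.Ico j (m - j), (a + i))

/-- `c^{(m)}_n(ν)`: the coefficient of `t^{2 n + 1}` in `R_{m,ν+2} / R_{m+1,ν+1}`. -/
def c (m n : ℕ) : K := (lommel m (nu + 2) / lommel (m + 1) (nu + 1)).coeff (2 * (n : ℤ) + 1)

/-- The exponent `f(m, n, j)` of the problem (it is nonnegative; integer division rounds down). -/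
def f (m n j : ℕ) : ℕ :=
  if 2 * j = m then 1
  else (max (((n : ℤ) + 1) / ((j : ℤ) + 1)) (((n : ℤ) + m + 1 - 2 * j) / ((m : ℤ) + 1 - j))).toNat

/-- `D^{(m)}_{n,ν}`. -/
def D (m n : ℕ) : K := ∏ j ∈ Finset.range (m + 1), (nu + 1 + j) ^ f m n j

/-- **Q1 for `m ≤ 10` and all `n`**: `N^{(m)}_{n,ν} = D^{(m)}_{n,ν} c^{(m)}_n(ν)` is a polynomial
in `ν` with nonnegative integer coefficients. -/
theorem result (m n : ℕ) (hm : m ≤ 10) : ∃ N : Polynomial ℕ,
    D m n * c m n = algebraMap (Polynomial ℚ) K (N.map (Nat.castRingHom ℚ)) := by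
  have h : Pool.Agent.H629.LM.D m n * Pool.Agent.H629.LM.c m n ∈ Pool.Agent.H629.LM.S := by
    interval_cases m
    · exact Pool.Agent.H629.LM.M0.main n
    · exact Pool.Agent.H629.LM.M1.main n
    · exact Pool.Agent.H629.LM.M2.main n
    · exact Pool.Agent.H629.LM.M3.main n
    · exact Pool.Agent.H629.LM.M4.main n
    · exact Pool.Agent.H629.LM.M5.main n
    · exact Pool.Agent.H629.LM.M6.main n
    · exact Pool.Agent.H629.LM.M7.main n
    · exact Pool.Agent.H629.LM.M8.main n
    · exact Pool.Agent.H629.LM.M9.main n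
    · exact Pool.Agent.H629.LM.M10.main n
  obtain ⟨N, hN⟩ := h
  exact ⟨N, hN.symm⟩

end

end Pool.Agent.Results.MP_9fbc95_co.SmallIndex
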